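import Pool.Agent.H.MP_475ccd_co.h83.Main

/-!
# MP_475ccd_co: a lower bound for the lower irredundance number of queens graphs

`queens n` is the queens graph on the board `Fin n × Fin n`, `lowerIr G` the minimum size of a maximal
irredundant set of `G` (both defined in `Pool.Agent.H.MP_475ccd_co.h83.Defs`).
-/

set_option autoImplicit false

namespace Pool.Agent.Results.MP_475ccd_co.LowerBound

open H83Q

theorem result :
    ∀ n : ℕ, 1 ≤ n →
      (∃ S : Finset (Fin n × Fin n), MaxIrredundant (queens n) S ∧ S.card = lowerIr (queens n)) ∧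
      (n : ℝ) / 3 ≤ lowerIr (queens n) ∧ (7 * (n : ℝ) - 19) / 20 ≤ lowerIr (queens n) := by
  intro n hn
  obtain ⟨h1, h2⟩ := main n hn
  have h1' : (n : ℝ) ≤ 3 * lowerIr (queens n) := by exact_mod_cast h1
  have h2' : 7 * (n : ℝ) ≤ 20 * lowerIr (queens n) + 19 := by exact_mod_cast h2
  refine ⟨lowerIr_spec n, ?_, ?_⟩
  · linarith
  · linarith

end Pool.Agent.Results.MP_475ccd_co.LowerBound
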